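import Pool.Agent.Lib.MP_acafa7_al.F.H03.Alg
import Pool.Agent.Lib.MP_acafa7_al.MS.H09.Abs
import Pool.Agent.Lib.MP_acafa7_al.MS.H25.AddE
import Pool.Agent.Lib.MP_acafa7_al.MS.H97.AddH
import Pool.Agent.Lib.MP_acafa7_al.MS.H09.Ang
import Pool.Agent.Lib.MP_acafa7_al.MS.H97.Close
import Pool.Agent.Lib.MP_acafa7_al.MS.H30.Cone
import Pool.Agent.Lib.MP_acafa7_al.MS.H23.DelV
import Pool.Agent.Lib.MP_acafa7_al.MS.H16.Eul
import Pool.Agent.Lib.MP_acafa7_al.MS.H22.Gb0
import Pool.Agent.Lib.MP_acafa7_al.MS.H09.Hair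
import Pool.Agent.Lib.MP_acafa7_al.MS.H94.LinkA
import Pool.Agent.Lib.MP_acafa7_al.MS.H94.LinkB
import Pool.Agent.Lib.MP_acafa7_al.MS.H57.RelTrans
import Pool.Agent.Lib.MP_acafa7_al.MS.H70.Rot
import Pool.Agent.Lib.MP_acafa7_al.MS.H72.Star
import Pool.Agent.Lib.MP_acafa7_al.MS.H25.StepC
import Pool.Agent.Lib.MP_acafa7_al.MS.H70.StepD
import Pool.Agent.Lib.MP_acafa7_al.MS.H70.StepI
import Pool.Agent.Lib.MP_acafa7_al.MS.H78.Zip

/-! PaperF.md, part Z: Proposition 1.1, without hypotheses. -/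

namespace MSZ

open Classical MSG

theorem z_stepI : StepIStatement := H70.stepi H97.addh
theorem z_stepD : StepDStatement := H70.stepd H78.zip
theorem z_stepC : StepCStatement := H25.stepc H25.adde
theorem z_close : CloseStatement := H97.close H78.zip
theorem z_cone : ConeStatement := H30.cone (H94.linkb H94.linka)
theorem z_gb0 : Gb0Statement := H22.gb0 H16.eul H09.ang

theorem z_starDel (A : Type) [AddCommGroup A] : StarDelStatement A :=
  stardel A H72.star (H23.delv H09.abs H09.hair)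

theorem z_red (A : Type) [AddCommGroup A] : RedStatement A :=
  red A (z_starDel A) z_cone z_stepI z_stepD z_stepC z_close H70.rot H57.reltrans

variable {V A : Type} [AddCommGroup A] {Y : Set V} {ω : V → V → V → A}

/-- Proposition 1.1: sequences of moves from `[x]` to `[x]` inside `Y` have weight zero. -/
theorem sph {X : Cx V} (hm : X.IsMetric) (hL : X.Large) (hω : Cocyc X.G Y ω)
    (hA : ∀ e : A, 3 • e = 0 → e = 0) {x : V} {e : A} (hx : x ∈ Y)
    (h : Hom X.G Y ω [x] [x] e) : e = 0 :=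
  sph0 hA z_gb0 (z_red A) z_stepI z_stepD z_stepC z_close H57.reltrans hm hL hω hx h

/-- Two null-homotopies inside `Y` of the same closed walk have the same weight. -/
theorem weight_unique {X : Cx V} (hm : X.IsMetric) (hL : X.Large) (hω : Cocyc X.G Y ω)
    (hA : ∀ e : A, 3 • e = 0 → e = 0) {x y : V} {w : List V} {e e' : A} (hw : ∀ v ∈ w, v ∈ Y)
    (hxy : IsW X.G x y w) (h : Hom X.G Y ω w [x] e) (h' : Hom X.G Y ω w [x] e') : e = e' := by
  have hx : x ∈ Y := by
    apply hw
    have := hxy.first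
    cases w with
    | nil => simp at this
    | cons a l =>
      simp at this
      simp [this]
  have h1 := (h.inv hw).2.trans h'
  have h2 := sph hm hL hω hA hx h1
  rw [neg_add_eq_zero] at h2
  exact h2

/-- Nullhomotopies with possibly different end points: same weight. -/
theorem weight_rel {X : Cx V} (hm : X.IsMetric) (hL : X.Large) (hω : Cocyc X.G Y ω)
    (hA : ∀ e : A, 3 • e = 0 → e = 0) {x y : V} {w w' : List V} {e e' e'' : A}
    (hw : ∀ v ∈ w, v ∈ Y) (hxy : IsW X.G x y w) (h1 : Hom X.G Y ω w w' e'')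
    (h : Hom X.G Y ω w [x] e) (h' : Hom X.G Y ω w' [x] e') : e = e'' + e' :=
  weight_unique hm hL hω hA hw hxy h (h1.trans h')

end MSZ
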