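import Pool.Agent.Lib.MP_acafa7_al.F.H03.Halg
import Pool.Agent.Lib.MP_acafa7_al.F.H03.AllZ

/-! The field `sph` of `CoarseHyp` (PaperF.md, Proposition 1.1). -/

namespace MSG.F03

open Classical

theorem coarse_sph {V : Type} (X : Cx V) (hm : X.IsMetric) (hL : X.Large) :
    ∀ (A : Type) [AddCommGroup A], No3 A → ∀ (S : Set V) (ω : V → V → V → A), CocA X.G S ω →
    ∀ (x : V) (e : A), x ∈ S → HomA X.G S ω [x] [x] e → e = 0 := by
  intro A _ h3 S ω hω x e hx h
  refine MSZ.sph hm hL (Y := S) (ω := ω) ⟨?_, ?_, ?_⟩ ?_ hx (hom_to h)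
  · exact fun x y z => (hω.alt x y z).1
  · exact fun x y z => (hω.alt x y z).2
  · exact hω.coc
  · intro a ha
    apply h3
    rw [← ha]
    abel

end MSG.F03
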