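import Pool.Agent.Lib.MP_acafa7_al.F.IfaceG
import Pool.Agent.Lib.MP_acafa7_al.F.H03.CSph

/-! Module SPHA of ff_modules (PaperF.md, Proposition 1.1). -/

namespace MSG.F03

open Classical

theorem spha_st : SphAStatement := by
  intro V A _ X hm hL h3 S ω hω x e hx h
  exact coarse_sph X hm hL A h3 S ω hω x e hx h

end MSG.F03
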