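import Pool.Agent.Lib.MP_acafa7_al.F.H03.Sph
import Pool.Agent.Lib.MP_acafa7_al.MS.H64.HomA

/-! PaperF.md, part Z: algebra of homotopies with weights. -/

namespace MSZ

open Classical MSG

variable {V A : Type} [AddCommGroup A] {G : SimpleGraph V} {Y : Set V} {ω : V → V → V → A}

theorem Stp.hom {l l' : List V} {e : A} (h : Stp G Y ω l l' e) : Hom G Y ω l l' e := by
  have := Hom.step h (Hom.refl l')
  simpa using this

theorem Hom.trans {l l' l'' : List V} {e e' : A} (h : Hom G Y ω l l' e)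
    (h' : Hom G Y ω l' l'' e') : Hom G Y ω l l'' (e + e') := by
  induction h with
  | refl l => simpa using h'
  | step s _ ih =>
    have := Hom.step s (ih h')
    rwa [← add_assoc] at this

theorem Stp.ctx (u v : List V) {l l' : List V} {e : A} (h : Stp G Y ω l l' e) :
    Stp G Y ω (u ++ l ++ v) (u ++ l' ++ v) e := by
  cases h with
  | ins u0 v0 x y hxy hy =>
    have := Stp.ins (G := G) (Y := Y) (ω := ω) (u ++ u0) (v0 ++ v) x y hxy hy
    simpa [List.append_assoc] using this
  | del u0 v0 x y hxy =>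
    have := Stp.del (G := G) (Y := Y) (ω := ω) (u ++ u0) (v0 ++ v) x y hxy
    simpa [List.append_assoc] using this
  | exp u0 v0 x y z hxy hyz hxz hy =>
    have := Stp.exp (G := G) (Y := Y) (ω := ω) (u ++ u0) (v0 ++ v) x y z hxy hyz hxz hy
    simpa [List.append_assoc] using this
  | con u0 v0 x y z hxy hyz hxz =>
    have := Stp.con (G := G) (Y := Y) (ω := ω) (u ++ u0) (v0 ++ v) x y z hxy hyz hxz
    simpa [List.append_assoc] using this

theorem Hom.ctx (u v : List V) {l l' : List V} {e : A} (h : Hom G Y ω l l' e) :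
    Hom G Y ω (u ++ l ++ v) (u ++ l' ++ v) e := by
  induction h with
  | refl l => exact Hom.refl _
  | step s _ ih => exact Hom.step (Stp.ctx u v s) ih

theorem Stp.mem {l l' : List V} {e : A} (h : Stp G Y ω l l' e) : ∀ x ∈ l', x ∈ Y ∨ x ∈ l :=
  H64.Stp.mem (to0 h)

theorem Stp.inv {l l' : List V} {e : A} (hl : ∀ x ∈ l, x ∈ Y) (h : Stp G Y ω l l' e) :
    (∀ x ∈ l', x ∈ Y) ∧ Stp G Y ω l' l (-e) := by
  refine ⟨(H64.Stp.inv hl (to0 h)).1, ?_⟩
  cases h with
  | ins u0 v0 x y hxy hy =>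
    rw [neg_zero]
    exact Stp.del _ _ _ _ hxy
  | del u0 v0 x y hxy =>
    rw [neg_zero]
    exact Stp.ins _ _ _ _ hxy (hl y (by simp))
  | exp u0 v0 x y z hxy hyz hxz hy =>
    rw [neg_neg]
    exact Stp.con _ _ _ _ _ hxy hyz hxz
  | con u0 v0 x y z hxy hyz hxz =>
    exact Stp.exp _ _ _ _ _ hxy hyz hxz (hl y (by simp))

theorem Hom.inv {l l' : List V} {e : A} (h : Hom G Y ω l l' e) (hl : ∀ x ∈ l, x ∈ Y) :
    (∀ x ∈ l', x ∈ Y) ∧ Hom G Y ω l' l (-e) := by
  induction h with
  | refl l => exact ⟨hl, by rw [neg_zero]; exact Hom.refl _⟩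
  | step s _ ih =>
    obtain ⟨h1, h2⟩ := Stp.inv hl s
    obtain ⟨h3, h4⟩ := ih h1
    refine ⟨h3, ?_⟩
    rw [neg_add_rev]
    exact h4.trans h2.hom

theorem Hom.mem {l l' : List V} {e : A} (h : Hom G Y ω l l' e) : ∀ x ∈ l', x ∈ Y ∨ x ∈ l := by
  induction h with
  | refl l => exact fun x hx => Or.inr hx
  | step s _ ih =>
    intro x hx
    rcases ih x hx with h | h
    · exact Or.inl h
    · exact s.mem x h

theorem Hom.mono {Y' : Set V} (hY : Y ⊆ Y') {l l' : List V} {e : A} (h : Hom G Y ω l l' e) :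
    Hom G Y' ω l l' e := by
  induction h with
  | refl l => exact Hom.refl _
  | step s _ ih => exact Hom.step (stp_mono hY s) ih

theorem Hom.isW {l l' : List V} {e : A} (h : Hom G Y ω l l' e) {a b : V}
    (hw : IsW G a b l) : IsW G a b l' := by
  induction h with
  | refl l => exact hw
  | step s _ ih => exact ih (isW_stp s hw)

/-- change of the weight -/
theorem Stp.chg {B : Type} [AddCommGroup B] {l l' : List V} {e : A} (ω' : V → V → V → B)
    (h : Stp G Y ω l l' e) : ∃ e', Stp G Y ω' l l' e' := stp_of (to0 h) ω'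

theorem Hom.chg {B : Type} [AddCommGroup B] {l l' : List V} {e : A} (ω' : V → V → V → B)
    (h : Hom G Y ω l l' e) : ∃ e', Hom G Y ω' l l' e' := by
  induction h with
  | refl l => exact ⟨0, Hom.refl _⟩
  | step s _ ih =>
    obtain ⟨e1, h1⟩ := s.chg ω'
    obtain ⟨e2, h2⟩ := ih
    exact ⟨_, Hom.step h1 h2⟩

/-- homomorphisms of weights -/
theorem Stp.comp {B : Type} [AddCommGroup B] (F : A →+ B) {l l' : List V} {e : A}
    (h : Stp G Y ω l l' e) : Stp G Y (fun x y z => F (ω x y z)) l l' (F e) := by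
  cases h with
  | ins u v x y hxy hy => rw [map_zero]; exact Stp.ins u v x y hxy hy
  | del u v x y hxy => rw [map_zero]; exact Stp.del u v x y hxy
  | exp u v x y z hxy hyz hxz hy => rw [map_neg]; exact Stp.exp u v x y z hxy hyz hxz hy
  | con u v x y z hxy hyz hxz =>
    exact Stp.con (ω := fun x y z => F (ω x y z)) u v x y z hxy hyz hxz

theorem Hom.comp {B : Type} [AddCommGroup B] (F : A →+ B) {l l' : List V} {e : A}
    (h : Hom G Y ω l l' e) : Hom G Y (fun x y z => F (ω x y z)) l l' (F e) := by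
  induction h with
  | refl l => rw [map_zero]; exact Hom.refl _
  | step s _ ih => rw [map_add]; exact Hom.step (s.comp F) ih

/-- weights which agree on the triangles of `Y` -/
theorem Stp.congr {ω' : V → V → V → A}
    (hω : ∀ x y z, x ∈ Y → y ∈ Y → z ∈ Y → G.Adj x y → G.Adj y z → G.Adj x z →
      ω' x y z = ω x y z) {l l' : List V} {e : A} (hl : ∀ x ∈ l, x ∈ Y)
    (h : Stp G Y ω l l' e) : Stp G Y ω' l l' e := by
  cases h with
  | ins u v x y hxy hy => exact Stp.ins u v x y hxy hy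
  | del u v x y hxy => exact Stp.del u v x y hxy
  | exp u v x y z hxy hyz hxz hy =>
    rw [← hω x y z (hl x (by simp)) hy (hl z (by simp)) hxy hyz hxz]
    exact Stp.exp u v x y z hxy hyz hxz hy
  | con u v x y z hxy hyz hxz =>
    rw [← hω x y z (hl x (by simp)) (hl y (by simp)) (hl z (by simp)) hxy hyz hxz]
    exact Stp.con u v x y z hxy hyz hxz

theorem Hom.congr {ω' : V → V → V → A}
    (hω : ∀ x y z, x ∈ Y → y ∈ Y → z ∈ Y → G.Adj x y → G.Adj y z → G.Adj x z →
      ω' x y z = ω x y z) {l l' : List V} {e : A} (hl : ∀ x ∈ l, x ∈ Y)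
    (h : Hom G Y ω l l' e) : Hom G Y ω' l l' e := by
  induction h with
  | refl l => exact Hom.refl _
  | step s _ ih => exact Hom.step (s.congr hω hl) (ih (Stp.inv hl s).1)

theorem Stp.rev (h12 : ∀ x y z, ω y x z = - ω x y z) (h23 : ∀ x y z, ω x z y = - ω x y z)
    {l l' : List V} {e : A} (h : Stp G Y ω l l' e) : Stp G Y ω l.reverse l'.reverse (-e) := by
  have key : ∀ x y z, ω z y x = - ω x y z := by
    intro x y z
    rw [h12 y z x, h23 y x z, h12 x y z, neg_neg]
  cases h with
  | ins u0 v0 x y hxy hy =>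
    rw [neg_zero]
    have := Stp.ins (G := G) (Y := Y) (ω := ω) v0.reverse u0.reverse x y hxy hy
    simpa [List.append_assoc] using this
  | del u0 v0 x y hxy =>
    rw [neg_zero]
    have := Stp.del (G := G) (Y := Y) (ω := ω) v0.reverse u0.reverse x y hxy
    simpa [List.append_assoc] using this
  | exp u0 v0 x y z hxy hyz hxz hy =>
    have := Stp.exp (G := G) (Y := Y) (ω := ω) v0.reverse u0.reverse z y x hyz.symm hxy.symm
      hxz.symm hy
    rw [key] at this
    simpa [List.append_assoc] using this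
  | con u0 v0 x y z hxy hyz hxz =>
    have := Stp.con (G := G) (Y := Y) (ω := ω) v0.reverse u0.reverse z y x hyz.symm hxy.symm
      hxz.symm
    rw [key] at this
    simpa [List.append_assoc] using this

theorem Hom.rev (h12 : ∀ x y z, ω y x z = - ω x y z) (h23 : ∀ x y z, ω x z y = - ω x y z)
    {l l' : List V} {e : A} (h : Hom G Y ω l l' e) : Hom G Y ω l.reverse l'.reverse (-e) := by
  induction h with
  | refl l => rw [neg_zero]; exact Hom.refl _
  | step s _ ih => rw [neg_add]; exact Hom.step (Stp.rev h12 h23 s) ih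

/-- maps of graphs -/
theorem Stp.map {V' : Type} {G' : SimpleGraph V'} {Y' : Set V'} {ω' : V' → V' → V' → A}
    (b : V → V') (hb : ∀ x y, G.Adj x y → G'.Adj (b x) (b y)) (hY : ∀ x ∈ Y, b x ∈ Y')
    (hω : ∀ x y z, ω' (b x) (b y) (b z) = ω x y z) {l l' : List V} {e : A}
    (h : Stp G Y ω l l' e) : Stp G' Y' ω' (l.map b) (l'.map b) e := by
  cases h with
  | ins u v x y hxy hy =>
    have := Stp.ins (G := G') (Y := Y') (ω := ω') (u.map b) (v.map b) (b x) (b y) (hb _ _ hxy)
      (hY _ hy)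
    simpa [List.append_assoc] using this
  | del u v x y hxy =>
    have := Stp.del (G := G') (Y := Y') (ω := ω') (u.map b) (v.map b) (b x) (b y) (hb _ _ hxy)
    simpa [List.append_assoc] using this
  | exp u v x y z hxy hyz hxz hy =>
    have := Stp.exp (G := G') (Y := Y') (ω := ω') (u.map b) (v.map b) (b x) (b y) (b z)
      (hb _ _ hxy) (hb _ _ hyz) (hb _ _ hxz) (hY _ hy)
    rw [hω] at this
    simpa [List.append_assoc] using this
  | con u v x y z hxy hyz hxz =>
    have := Stp.con (G := G') (Y := Y') (ω := ω') (u.map b) (v.map b) (b x) (b y) (b z)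
      (hb _ _ hxy) (hb _ _ hyz) (hb _ _ hxz)
    rw [hω] at this
    simpa [List.append_assoc] using this

theorem Hom.map {V' : Type} {G' : SimpleGraph V'} {Y' : Set V'} {ω' : V' → V' → V' → A}
    (b : V → V') (hb : ∀ x y, G.Adj x y → G'.Adj (b x) (b y)) (hY : ∀ x ∈ Y, b x ∈ Y')
    (hω : ∀ x y z, ω' (b x) (b y) (b z) = ω x y z) {l l' : List V} {e : A}
    (h : Hom G Y ω l l' e) : Hom G' Y' ω' (l.map b) (l'.map b) e := by
  induction h with
  | refl l => exact Hom.refl _
  | step s _ ih => exact Hom.step (s.map b hb hY hω) ih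

/-- `l · l⁻¹` is null-homotopic with weight 0 -/
theorem catRev (l : List V) : ∀ x y, IsW G x y l → (∀ z ∈ l, z ∈ Y) →
    Hom G Y ω (cat l l.reverse) [x] 0 := by
  induction l with
  | nil =>
    intro x y hw _
    have := hw.first
    simp at this
  | cons a l ih =>
    intro x y hw hY
    have hx : a = x := by
      have := hw.first
      simpa using this
    subst hx
    cases l with
    | nil => exact Hom.refl _
    | cons b l =>
      have hc := hw.chain
      rw [List.isChain_cons_cons] at hc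
      have hw' : IsW G b y (b :: l) := by
        refine ⟨hc.2, rfl, ?_⟩
        have := hw.last
        rwa [List.getLast?_cons_cons] at this
      have h1 := ih b y hw' (fun z hz => hY z (List.mem_cons_of_mem _ hz))
      have h2 := Hom.ctx [a] [a] h1
      have h3 : [a] ++ cat (b :: l) (b :: l).reverse ++ [a] = cat (a :: b :: l)
          (a :: b :: l).reverse := by
        have hne : (b :: l).reverse ≠ [] := by simp
        unfold cat
        rw [List.reverse_cons (a := a) (as := b :: l), List.tail_append_of_ne_nil hne]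
        simp
      rw [h3] at h2
      have h4 : Stp G Y ω ([] ++ a :: b :: a :: []) ([] ++ a :: []) 0 := Stp.del [] [] a b hc.1
      have h5 := Hom.trans h2 (Stp.hom h4)
      simpa using h5

/-! ### no automorphism -/

/-- disjoint union of copies of `X` indexed by `ℤ` -/
def cxZ (X : Cx V) : Cx (V × ℤ) where
  G :=
    { Adj := fun p q => X.G.Adj p.1 q.1 ∧ p.2 = q.2
      symm := ⟨fun _ _ h => ⟨h.1.symm, h.2.symm⟩⟩
      loopless := ⟨fun _ h => h.1.ne rfl⟩ }
  len := fun p q => X.len p.1 q.1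

theorem cxZ_metric {X : Cx V} (h : X.IsMetric) : (cxZ X).IsMetric where
  symm := fun _ _ => h.symm _ _
  pos := fun _ _ hxy => h.pos _ _ hxy.1
  tri := fun _ _ _ h1 h2 h3 => h.tri _ _ _ h1.1 h2.1 h3.1
  angle := fun _ _ _ _ h1 h2 h3 h4 h5 h6 => h.angle _ _ _ _ h1.1 h2.1 h3.1 h4.1 h5.1 h6.1

theorem cxZ_large {X : Cx V} (h : X.Large) : (cxZ X).Large := by
  intro v k c hk hc hfull
  have h2 : ∀ i, (c i).2 = v.2 := fun i => (hc.link i).2.symm
  refine h v.1 k (fun i => (c i).1) hk ⟨?_, ?_, ?_, ?_⟩ ?_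
  · intro i
    show (c (i + k)).1 = (c i).1
    rw [hc.per]
  · intro i
    exact (hc.link i).1
  · intro i
    exact (hc.adj i).1
  · intro i j hi hj hij
    exact hc.inj i j hi hj (Prod.ext hij ((h2 i).trans (h2 j).symm))
  · intro i hi
    exact hfull i ⟨hi, (h2 i).trans (h2 (i + 2)).symm⟩

def shZ (V : Type) : Equiv.Perm (V × ℤ) where
  toFun p := (p.1, p.2 + 1)
  invFun p := (p.1, p.2 - 1)
  left_inv p := by simp
  right_inv p := by simp

theorem shZ_pow (n : ℤ) (p : V × ℤ) : ((shZ V) ^ n) p = (p.1, p.2 + n) := by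
  induction n using Int.induction_on generalizing p with
  | zero => simp
  | succ i ih =>
    rw [zpow_add_one]
    show (shZ V ^ (i : ℤ)) (shZ V p) = _
    rw [ih]
    show (p.1, p.2 + 1 + (i : ℤ)) = _
    ring_nf
  | pred i ih =>
    rw [zpow_sub_one]
    show (shZ V ^ (-(i : ℤ))) ((shZ V).symm p) = _
    rw [ih]
    show (p.1, p.2 - 1 + (-(i : ℤ))) = _
    ring_nf

theorem shZ_free (X : Cx V) : FreeAut (cxZ X) (shZ V) where
  adj := by
    intro x y
    show (X.G.Adj x.1 y.1 ∧ x.2 + 1 = y.2 + 1) ↔ (X.G.Adj x.1 y.1 ∧ x.2 = y.2)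
    rw [add_left_inj]
  len := fun _ _ => rfl
  free := by
    intro x n h
    rw [shZ_pow] at h
    have := congrArg Prod.snd h
    simpa using this

/-- Proposition 1.1 of PaperF.md (hypotheses = landed modules). -/
theorem sph0 (hA : ∀ e : A, 3 • e = 0 → e = 0)
    (h1 : Gb0Statement) (hred : RedStatement A)
    (hI : StepIStatement) (hD : StepDStatement) (hC : StepCStatement) (hcl : CloseStatement)
    (hT : RelTransStatement) {X : Cx V} (hm : X.IsMetric) (hL : X.Large) {Y : Set V}
    {ω : V → V → V → A} (hω : Cocyc X.G Y ω) {x : V} {e : A} (hx : x ∈ Y)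
    (h : Hom X.G Y ω [x] [x] e) : e = 0 := by
  refine sph_aut hA h1 hred hI hD hC hcl hT (V × ℤ) (cxZ X) (shZ V) (cxZ_metric hm) (cxZ_large hL)
    (shZ_free X) {p | p.1 ∈ Y} (fun p q r => ω p.1 q.1 r.1) ⟨?_, ?_, ?_⟩ (x, 0) e hx ?_
  · exact fun _ _ _ => hω.s12 _ _ _
  · exact fun _ _ _ => hω.s23 _ _ _
  · intro p q r s hp hq hr hs h1 h2 h3 h4 h5 h6
    exact hω.coc _ _ _ _ hp hq hr hs h1.1 h2.1 h3.1 h4.1 h5.1 h6.1
  · exact h.map (G' := (cxZ X).G) (Y' := {p : V × ℤ | p.1 ∈ Y})
      (ω' := fun p q r => ω p.1 q.1 r.1) (fun v => ((v, 0) : V × ℤ)) (fun _ _ h => ⟨h, rfl⟩)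
      (fun _ h => h) (fun _ _ _ => rfl)

end MSZ
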