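import Pool.Agent.Lib.MP_acafa7_al.F.IfaceC
import Pool.Agent.Lib.MP_acafa7_al.F.H03.Alg

/-! Module HALG of ff_modules: algebra of weighted homotopies. -/

namespace MSG.F03

open Classical

variable {V A : Type} [AddCommGroup A] {G : SimpleGraph V} {S : Set V} {ω : V → V → V → A}
  {l l' : List V} {e : A}

theorem stp_to (h : StpA G S ω l l' e) : MSZ.Stp G S ω l l' e := by
  cases h with
  | ins u v x y hxy hy => exact MSZ.Stp.ins u v x y hxy hy
  | del u v x y hxy => exact MSZ.Stp.del u v x y hxy
  | exp u v x y z hxy hyz hxz hy => exact MSZ.Stp.exp u v x y z hxy hyz hxz hy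
  | con u v x y z hxy hyz hxz => exact MSZ.Stp.con u v x y z hxy hyz hxz

theorem stp_of (h : MSZ.Stp G S ω l l' e) : StpA G S ω l l' e := by
  cases h with
  | ins u v x y hxy hy => exact StpA.ins u v x y hxy hy
  | del u v x y hxy => exact StpA.del u v x y hxy
  | exp u v x y z hxy hyz hxz hy => exact StpA.exp u v x y z hxy hyz hxz hy
  | con u v x y z hxy hyz hxz => exact StpA.con u v x y z hxy hyz hxz

theorem hom_to (h : HomA G S ω l l' e) : MSZ.Hom G S ω l l' e := by
  induction h with
  | refl l => exact MSZ.Hom.refl l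
  | step s _ ih => exact MSZ.Hom.step (stp_to s) ih

theorem hom_of (h : MSZ.Hom G S ω l l' e) : HomA G S ω l l' e := by
  induction h with
  | refl l => exact HomA.refl l
  | step s _ ih => exact HomA.step (stp_of s) ih

theorem homA_ctx (u v : List V) (h : HomA G S ω l l' e) :
    HomA G S ω (u ++ l ++ v) (u ++ l' ++ v) e := hom_of ((hom_to h).ctx u v)

theorem homA_isW {x y : V} (h : HomA G S ω l l' e) (hw : IsW G x y l) : IsW G x y l' :=
  (hom_to h).isW hw

theorem isW_cons {x y : V} {l : List V} (h : IsW G x y l) : l = x :: l.tail := by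
  have := h.first
  cases l with
  | nil => simp at this
  | cons a l =>
    simp at this
    simp [this]

theorem isW_snoc {x y : V} {l : List V} (h : IsW G x y l) : l = l.dropLast ++ [y] := by
  have := h.last
  rw [List.getLast?_eq_some_iff] at this
  obtain ⟨u, rfl⟩ := this
  simp

theorem homA_catL {x y z : V} {m : List V} (hm : IsW G x y m) (hl : IsW G y z l)
    (h : HomA G S ω l l' e) : HomA G S ω (cat m l) (cat m l') e := by
  have hl' := homA_isW h hl
  have e1 : cat m l = m.dropLast ++ l ++ [] := by
    unfold cat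
    conv_lhs => rw [isW_snoc hm]
    conv_rhs => rw [isW_cons hl]
    simp
  have e2 : cat m l' = m.dropLast ++ l' ++ [] := by
    unfold cat
    conv_lhs => rw [isW_snoc hm]
    conv_rhs => rw [isW_cons hl']
    simp
  rw [e1, e2]
  exact homA_ctx _ _ h

theorem homA_catR {m : List V} (h : HomA G S ω l l' e) :
    HomA G S ω (cat l m) (cat l' m) e := by
  unfold cat
  have := homA_ctx [] m.tail h
  simpa using this

theorem halg_st : HAlgStatement := by
  intro V A _ G S ω
  refine ⟨?_, ?_, ?_, ?_, ?_, ?_, ?_, ?_, ?_, ?_, ?_, ?_⟩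
  · exact fun l l' l'' e e' h h' => hom_of ((hom_to h).trans (hom_to h'))
  · exact fun u v l l' e h => homA_ctx u v h
  · exact fun l l' e hl h => ⟨((hom_to h).inv hl).1, hom_of ((hom_to h).inv hl).2⟩
  · intro l l' e A' _ ω' h
    obtain ⟨e', h'⟩ := (hom_to h).chg ω'
    exact ⟨e', hom_of h'⟩
  · exact fun l l' e S' hS h => hom_of ((hom_to h).mono hS)
  · exact fun l l' e x y h hw => homA_isW h hw
  · exact fun l l' e hω h => hom_of ((hom_to h).rev (fun x y z => (hω x y z).1)
      (fun x y z => (hω x y z).2))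
  · exact fun l x y hw hl => hom_of (MSZ.catRev l x y hw hl)
  · intro b hb l l' e h
    exact hom_of ((hom_to h).map (G' := G) (Y' := b '' S)
      (ω' := fun x y z => ω (b.symm x) (b.symm y) (b.symm z)) b (fun x y h => (hb x y).2 h)
      (fun x hx => ⟨x, hx, rfl⟩) (fun x y z => by simp))
  · exact fun A' _ φ l l' e h => hom_of ((hom_to h).comp φ)
  · exact fun x y z l l' m e hm hl h => homA_catL hm hl h
  · exact fun x y z l l' m e hl hm h => homA_catR h

end MSG.F03
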