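import Pool.Agent.Lib.MP_acafa7_al.F.H03.Defs

/-! PaperF.md, part Z: coning off with weights. -/

namespace MSZ

open Classical MSG

variable {V A : Type} [AddCommGroup A]

theorem sE_range (η : V → V → A) (u : ℕ → V) (k : ℕ) :
    sE η ((List.range (k + 1)).map u) = ∑ i ∈ Finset.range k, η (u i) (u (i + 1)) := by
  induction k with
  | zero => simp
  | succ k ih =>
    rw [List.range_succ, List.map_append, List.range_succ, List.map_append, List.append_assoc]
    simp only [List.map_cons, List.map_nil, List.cons_append, List.nil_append]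
    rw [sE_app, sE_cc, Finset.sum_range_succ, ← ih, List.range_succ, List.map_append]
    simp

theorem cocyc0 {G : SimpleGraph V} {Y : Set V} :
    MSG.Cocyc G Y (fun _ _ _ => 0) := ⟨fun _ _ _ => rfl, fun _ _ _ => rfl, by simp⟩

/-- Lemma 1.3 with weights in `A`. -/
theorem cone (hC : ConeStatement) {X : Cx V} (hm : X.IsMetric) (hL : X.Large) {Y : Set V}
    {ω : V → V → V → A} (hω : Cocyc X.G Y ω) (x : V) (k : ℕ) (u : ℕ → V) (hx : x ∈ Y) (hk : 2 ≤ k)
    (hu : ∀ i, u i ∈ Y) (hper : ∀ i, u (i + k) = u i) (hxu : ∀ i, X.G.Adj x (u i))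
    (huu : ∀ i, X.G.Adj (u i) (u (i + 1)))
    (hsum : ∑ i ∈ Finset.range k, X.A x (u i) (u (i + 1)) < 2 * Real.pi) :
    ∃ n, n + 2 ≤ k ∧ NulP X.G Y ω ((List.range (k + 1)).map u)
      (∑ i ∈ Finset.range k, ω x (u i) (u (i + 1))) n := by
  set Y₀ : Set V := {v | v ∈ Y ∧ (v = x ∨ X.G.Adj x v)} with hY₀
  obtain ⟨n, hn, h⟩ := hC V X hm hL Y₀ (fun _ _ _ => 0) cocyc0 x k u ⟨hx, Or.inl rfl⟩ hk
    (fun i => ⟨hu i, Or.inr (hxu i)⟩) hper hxu huu hsum
  obtain ⟨e, he⟩ := nul_of h ω
  have hxx : ∀ y, ω x x y = - ω x x y := fun y => hω.s12 x x y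
  set η : V → V → A := fun p q => if p = x ∨ q = x then 0 else ω x p q with hη
  have h1 : ∀ p q, η q p = - η p q := by
    intro p q
    simp only [hη]
    by_cases hp : p = x <;> by_cases hq : q = x <;> simp [hp, hq]
    exact hω.s23 _ _ _
  have h2 : ∀ p q r, p ∈ Y₀ → q ∈ Y₀ → r ∈ Y₀ → X.G.Adj p q → X.G.Adj q r → X.G.Adj p r →
      ω p q r = η p q + η q r - η p r := by
    intro p q r hp hq hr hpq hqr hpr
    simp only [hη]
    rcases hp.2 with rfl | hp2
    · have hq' : q ≠ p := hpq.ne'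
      have hr' : r ≠ p := hpr.ne'
      simp [hq', hr']
    · have hp' : p ≠ x := hp2.ne'
      rcases hq.2 with rfl | hq2
      · have hr' : r ≠ q := hqr.ne'
        simp only [hp', hr', false_or, or_true, true_or, if_true, if_false]
        rw [hω.s12]
        abel
      · have hq' : q ≠ x := hq2.ne'
        rcases hr.2 with rfl | hr2
        · simp only [hp', hq', or_true, or_false, if_true, if_false]
          rw [add_zero, sub_zero, ← hω.cyc, ← hω.cyc]
        · have hr' : r ≠ x := hr2.ne'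
          simp only [hp', hq', hr', or_false, if_false]
          have h := hω.coc x p q r hx hp.1 hq.1 hr.1 hp2 hq2 hr2 hpq hpr hqr
          have h' : ω p q r = (ω p q r - ω x q r + ω x p r - ω x p q) +
              (ω x q r - ω x p r + ω x p q) := by abel
          rw [h, zero_add] at h'
          rw [h']
          abel
  refine ⟨n, hn, ?_⟩
  have hw : ∀ v ∈ (List.range (k + 1)).map u, v ∈ Y₀ := by
    intro v hv
    rw [List.mem_map] at hv
    obtain ⟨i, _, rfl⟩ := hv
    exact ⟨hu i, Or.inr (hxu i)⟩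
  have he' := nul_exact h1 h2 hw he
  rw [sE_range] at he'
  have he2 : e = ∑ i ∈ Finset.range k, ω x (u i) (u (i + 1)) := by
    rw [he']
    refine Finset.sum_congr rfl fun i _ => ?_
    simp only [hη]
    rw [if_neg]
    rintro (h | h)
    · exact (hxu i).ne' h
    · exact (hxu (i + 1)).ne' h
  rw [← he2]
  exact nul_mono (fun v hv => hv.1) he

end MSZ
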