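import Pool.Agent.Lib.MP_acafa7_al.MS.Iface1

/-! PaperF.md, part Z: homotopies with weights in an abelian group. -/

namespace MSZ

open Classical MSG

variable {V A : Type} [AddCommGroup A]

/-- Elementary homotopies inside `Y`, with weights in `A`. -/
inductive Stp (G : SimpleGraph V) (Y : Set V) (ω : V → V → V → A) : List V → List V → A → Prop
  | ins (u v : List V) (x y : V) : G.Adj x y → y ∈ Y →
      Stp G Y ω (u ++ x :: v) (u ++ x :: y :: x :: v) 0
  | del (u v : List V) (x y : V) : G.Adj x y →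
      Stp G Y ω (u ++ x :: y :: x :: v) (u ++ x :: v) 0
  | exp (u v : List V) (x y z : V) : G.Adj x y → G.Adj y z → G.Adj x z → y ∈ Y →
      Stp G Y ω (u ++ x :: z :: v) (u ++ x :: y :: z :: v) (-ω x y z)
  | con (u v : List V) (x y z : V) : G.Adj x y → G.Adj y z → G.Adj x z →
      Stp G Y ω (u ++ x :: y :: z :: v) (u ++ x :: z :: v) (ω x y z)

/-- Sequences of elementary homotopies inside `Y` with total weight. -/
inductive Hom (G : SimpleGraph V) (Y : Set V) (ω : V → V → V → A) : List V → List V → A → Prop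
  | refl (l : List V) : Hom G Y ω l l 0
  | step {l l' l'' : List V} {e e' : A} : Stp G Y ω l l' e → Hom G Y ω l' l'' e' →
      Hom G Y ω l l'' (e + e')

/-- Fillings of closed walks `[x, .., x]` (lists of length at least 3) inside `Y`, with weight and
number of triangles; one can rotate the base point. -/
inductive NulP (G : SimpleGraph V) (Y : Set V) (ω : V → V → V → A) : List V → A → ℕ → Prop
  | base (x y : V) : G.Adj x y → NulP G Y ω [x, y, x] 0 0
  | rot (x y : V) (l : List V) (e : A) (n : ℕ) : (x :: y :: l).getLast? = some x →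
      NulP G Y ω (y :: (l ++ [y])) e n → NulP G Y ω (x :: y :: l) e n
  | stp (w w' : List V) (e e' : A) (n : ℕ) : Stp G Y ω w w' e → 3 ≤ w'.length →
      NulP G Y ω w' e' n → NulP G Y ω w (e + e') (n + nTri w w')

/-- alternating functions of triples, cocycle on the 4-cliques of `Y` -/
structure Cocyc (G : SimpleGraph V) (Y : Set V) (ω : V → V → V → A) : Prop where
  s12 : ∀ x y z, ω y x z = - ω x y z
  s23 : ∀ x y z, ω x z y = - ω x y z
  coc : ∀ x y z w, x ∈ Y → y ∈ Y → z ∈ Y → w ∈ Y → G.Adj x y → G.Adj x z → G.Adj x w →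
    G.Adj y z → G.Adj y w → G.Adj z w → ω y z w - ω x z w + ω x y w - ω x y z = 0

theorem Cocyc.cyc {G : SimpleGraph V} {Y : Set V} {ω : V → V → V → A} (h : Cocyc G Y ω)
    (x y z : V) : ω y z x = ω x y z := by
  rw [h.s23, h.s12, neg_neg]

/-- sum over the edges of a walk -/
def sE (η : V → V → A) : List V → A
  | x :: y :: l => η x y + sE η (y :: l)
  | _ => 0

@[simp] theorem sE_cc (η : V → V → A) (x y : V) (l : List V) :
    sE η (x :: y :: l) = η x y + sE η (y :: l) := rfl

@[simp] theorem sE_one (η : V → V → A) (x : V) : sE η [x] = 0 := rfl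

theorem sE_app (η : V → V → A) (u : List V) (x : V) (v : List V) :
    sE η (u ++ x :: v) = sE η (u ++ [x]) + sE η (x :: v) := by
  induction u with
  | nil => simp
  | cons b u ih =>
    cases u with
    | nil => simp
    | cons c u =>
      simp only [List.cons_append, sE_cc] at ih ⊢
      rw [ih, add_assoc]

/-- sum over the triangles outside `B` (each one is counted 3 times) -/
noncomputable def ws {D : Type} {a : Equiv.Perm V} [Fintype D] (M : LMap V D a) (B : Set D)
    (ω : V → V → V → A) : A :=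
  ∑ d : D, if d ∈ B then 0 else ω (M.f d) (M.f (M.φ d)) (M.f (M.φ (M.φ d)))

/-- conclusion of one step on a face `R` with walk `w` -/
def StepConcl {D : Type} [Fintype D] {a : Equiv.Perm V} (G : SimpleGraph V) (Y : Set V)
    (ω : V → V → V → A) (M : LMap V D a) (R : List D) (w : List V) (e : A) (n : ℕ) : Prop :=
  ∃ (D' : Type) (_ : Fintype D') (M' : LMap V D' a) (R' : List D'),
    M'.HasWalk R' w ∧ M'.Planar ∧ M'.AdjM G ∧ M.Rel R M' R' n ∧
    (M.Zero → M'.Zero ∧ ((∀ d, M.f d ∈ Y) → ∀ d, M'.f d ∈ Y) ∧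
      ws M' {d | d ∈ R'} ω = ws M {d | d ∈ R} ω + 3 • e)

/-! ### exactness -/

variable {G : SimpleGraph V} {L : Set V} {ω : V → V → V → A} {η : V → V → A}

theorem stp_exact (h1 : ∀ x y, η y x = - η x y)
    (h2 : ∀ x y z, x ∈ L → y ∈ L → z ∈ L → G.Adj x y → G.Adj y z → G.Adj x z →
      ω x y z = η x y + η y z - η x z) {l l' : List V} {e : A} (hl : ∀ v ∈ l, v ∈ L)
    (h : Stp G L ω l l' e) : (∀ v ∈ l', v ∈ L) ∧ e = sE η l - sE η l' := by
  cases h with
  | ins u v x y hxy hy =>
    refine ⟨?_, ?_⟩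
    · intro w hw
      simp only [List.mem_append, List.mem_cons] at hw hl
      rcases hw with hw | hw | hw | hw | hw
      · exact hl w (Or.inl hw)
      · exact hl w (Or.inr (Or.inl hw))
      · rw [hw]; exact hy
      · exact hl w (Or.inr (Or.inl hw))
      · exact hl w (Or.inr (Or.inr hw))
    · rw [sE_app η u x v, sE_app η u x (y :: x :: v), sE_cc, sE_cc, h1 x y]
      abel
  | del u v x y hxy =>
    refine ⟨?_, ?_⟩
    · intro w hw
      simp only [List.mem_append, List.mem_cons] at hw hl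
      rcases hw with hw | hw | hw
      · exact hl w (Or.inl hw)
      · exact hl w (Or.inr (Or.inl hw))
      · exact hl w (Or.inr (Or.inr (Or.inr (Or.inr hw))))
    · rw [sE_app η u x v, sE_app η u x (y :: x :: v), sE_cc, sE_cc, h1 x y]
      abel
  | exp u v x y z hxy hyz hxz hy =>
    have hx : x ∈ L := hl x (by simp)
    have hz : z ∈ L := hl z (by simp)
    refine ⟨?_, ?_⟩
    · intro w hw
      simp only [List.mem_append, List.mem_cons] at hw hl
      rcases hw with hw | hw | hw | hw | hw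
      · exact hl w (Or.inl hw)
      · exact hl w (Or.inr (Or.inl hw))
      · rw [hw]; exact hy
      · exact hl w (Or.inr (Or.inr (Or.inl hw)))
      · exact hl w (Or.inr (Or.inr (Or.inr hw)))
    · rw [sE_app η u x (z :: v), sE_app η u x (y :: z :: v), sE_cc, sE_cc, sE_cc,
        h2 x y z hx hy hz hxy hyz hxz]
      abel
  | con u v x y z hxy hyz hxz =>
    have hx : x ∈ L := hl x (by simp)
    have hy : y ∈ L := hl y (by simp)
    have hz : z ∈ L := hl z (by simp)
    refine ⟨?_, ?_⟩
    · intro w hw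
      simp only [List.mem_append, List.mem_cons] at hw hl
      rcases hw with hw | hw | hw | hw
      · exact hl w (Or.inl hw)
      · exact hl w (Or.inr (Or.inl hw))
      · exact hl w (Or.inr (Or.inr (Or.inr (Or.inl hw))))
      · exact hl w (Or.inr (Or.inr (Or.inr (Or.inr hw))))
    · rw [sE_app η u x (z :: v), sE_app η u x (y :: z :: v), sE_cc, sE_cc, sE_cc,
        h2 x y z hx hy hz hxy hyz hxz]
      abel

theorem hom_exact (h1 : ∀ x y, η y x = - η x y)
    (h2 : ∀ x y z, x ∈ L → y ∈ L → z ∈ L → G.Adj x y → G.Adj y z → G.Adj x z →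
      ω x y z = η x y + η y z - η x z) {l l' : List V} {e : A} (hl : ∀ v ∈ l, v ∈ L)
    (h : Hom G L ω l l' e) : (∀ v ∈ l', v ∈ L) ∧ e = sE η l - sE η l' := by
  induction h with
  | refl l => exact ⟨hl, by simp⟩
  | step s _ ih =>
    obtain ⟨a1, a2⟩ := stp_exact h1 h2 hl s
    obtain ⟨b1, b2⟩ := ih a1
    exact ⟨b1, by rw [a2, b2]; abel⟩

theorem nul_exact (h1 : ∀ x y, η y x = - η x y)
    (h2 : ∀ x y z, x ∈ L → y ∈ L → z ∈ L → G.Adj x y → G.Adj y z → G.Adj x z →
      ω x y z = η x y + η y z - η x z) {w : List V} {e : A} {n : ℕ} (hl : ∀ v ∈ w, v ∈ L)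
    (h : NulP G L ω w e n) : e = sE η w := by
  induction h with
  | base x y hxy => simp [h1 x y]
  | rot x y l e n hlast _ ih =>
    have hl' : ∀ v ∈ y :: (l ++ [y]), v ∈ L := by
      intro v hv
      simp only [List.mem_cons, List.mem_append, List.not_mem_nil, or_false] at hv hl
      rcases hv with hv | hv | hv
      · exact hl v (Or.inr (Or.inl hv))
      · exact hl v (Or.inr (Or.inr hv))
      · exact hl v (Or.inr (Or.inl hv))
    rw [ih hl']
    have hx : (y :: l).getLast? = some x := by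
      rwa [List.getLast?_cons_cons] at hlast
    obtain ⟨u, hu⟩ : ∃ u, y :: l = u ++ [x] := by
      rw [List.getLast?_eq_some_iff] at hx
      exact hx
    have e1 : y :: (l ++ [y]) = u ++ x :: [y] := by
      rw [← List.cons_append, hu]
      simp
    rw [e1, sE_app, sE_cc, sE_cc, hu]
    simp [add_comm]
  | stp w w' e e' n hs hlen _ ih =>
    obtain ⟨a1, a2⟩ := stp_exact h1 h2 hl hs
    rw [ih a1, a2]
    abel

/-! ### change of weights -/

theorem stp_of {ω₀ : V → V → V → ZMod 2} {Y : Set V} {l l' : List V} {e : ZMod 2}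
    (h : MSG.Stp G Y ω₀ l l' e) (ω : V → V → V → A) : ∃ e', Stp G Y ω l l' e' := by
  cases h with
  | ins u v x y hxy hy => exact ⟨_, Stp.ins u v x y hxy hy⟩
  | del u v x y hxy => exact ⟨_, Stp.del u v x y hxy⟩
  | exp u v x y z hxy hyz hxz hy => exact ⟨_, Stp.exp u v x y z hxy hyz hxz hy⟩
  | con u v x y z hxy hyz hxz => exact ⟨_, Stp.con u v x y z hxy hyz hxz⟩

theorem hom_of {ω₀ : V → V → V → ZMod 2} {Y : Set V} {l l' : List V} {e : ZMod 2}
    (h : MSG.Hom G Y ω₀ l l' e) (ω : V → V → V → A) : ∃ e', Hom G Y ω l l' e' := by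
  induction h with
  | refl l => exact ⟨0, Hom.refl l⟩
  | step s _ ih =>
    obtain ⟨e1, h1⟩ := stp_of s ω
    obtain ⟨e2, h2⟩ := ih
    exact ⟨_, Hom.step h1 h2⟩

theorem nul_of {ω₀ : V → V → V → ZMod 2} {Y : Set V} {w : List V} {e : ZMod 2} {n : ℕ}
    (h : MSG.NulP G Y ω₀ w e n) (ω : V → V → V → A) : ∃ e', NulP G Y ω w e' n := by
  induction h with
  | base x y hxy => exact ⟨0, NulP.base x y hxy⟩
  | rot x y l e n hlast _ ih =>
    obtain ⟨e', h'⟩ := ih
    exact ⟨e', NulP.rot x y l e' n hlast h'⟩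
  | stp w w' e e' n hs hlen _ ih =>
    obtain ⟨e1, h1⟩ := stp_of hs ω
    obtain ⟨e2, h2⟩ := ih
    exact ⟨_, NulP.stp w w' e1 e2 n h1 hlen h2⟩

theorem stp_mono {Y Y' : Set V} (hY : Y ⊆ Y') {l l' : List V} {e : A} (h : Stp G Y ω l l' e) :
    Stp G Y' ω l l' e := by
  cases h with
  | ins u v x y hxy hy => exact Stp.ins u v x y hxy (hY hy)
  | del u v x y hxy => exact Stp.del u v x y hxy
  | exp u v x y z hxy hyz hxz hy => exact Stp.exp u v x y z hxy hyz hxz (hY hy)
  | con u v x y z hxy hyz hxz => exact Stp.con u v x y z hxy hyz hxz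

theorem nul_mono {Y Y' : Set V} (hY : Y ⊆ Y') {w : List V} {e : A} {n : ℕ}
    (h : NulP G Y ω w e n) : NulP G Y' ω w e n := by
  induction h with
  | base x y hxy => exact NulP.base x y hxy
  | rot x y l e n hlast _ ih => exact NulP.rot x y l e n hlast ih
  | stp w w' e e' n hs hlen _ ih => exact NulP.stp w w' e e' n (stp_mono hY hs) hlen ih

end MSZ
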