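import Pool.Agent.Lib.MP_acafa7_al.F.H03.Rel

/-! PaperF.md, part Z: steps and fillings with weights. -/

namespace MSZ

open Classical MSG

variable {V : Type} {D D' : Type} [Fintype D] [Fintype D'] {a : Equiv.Perm V}

omit [Fintype D] in
theorem face_iff {M : LMap V D a} {R : List D} (h : R = [] ∨ M.IsFace R) :
    (∀ d, M.φ d ∈ R ↔ d ∈ R) ∧ R.Nodup := by
  rcases h with rfl | h
  · simp
  · exact ⟨fun d => H70.IsFace.φ_mem_iff _ h, h.2.1⟩

theorem rel_ws0 {M : LMap V D a} {M' : LMap V D' a} {R : List D} {R' : List D'}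
    (hR : R = [] ∨ M.IsFace R) (hR' : R' = [] ∨ M'.IsFace R') (h : M.Rel R M' R' 0)
    {A : Type} [AddCommGroup A] (F : V → V → V → A) :
    ws M' {d | d ∈ R'} F = ws M {d | d ∈ R} F := by
  obtain ⟨N, hN, -, hF⟩ := rel_sum (face_iff hR).1 (face_iff hR).2 (face_iff hR').1
    (face_iff hR').2 h
  rw [hF A F]
  have : N = ∅ := Finset.card_eq_zero.1 (by simpa using hN)
  rw [this]
  simp

theorem tri_id {x y z p q r : V} (hxy : x ≠ y) (hyz : y ≠ z) (hxz : x ≠ z)
    (h : ∀ η : V → V → ℤ, (∀ b c, η c b = - η b c) →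
      η p q + η q r + η r p = η x y + η y z - η x z) :
    (p = x ∧ q = y ∧ r = z) ∨ (p = y ∧ q = z ∧ r = x) ∨ (p = z ∧ q = x ∧ r = y) := by
  have key : ∀ s t : V, s ≠ t → ((x = s ∧ y = t) ∨ (y = s ∧ z = t)) →
      (p = s ∧ q = t) ∨ (q = s ∧ r = t) ∨ (r = s ∧ p = t) := by
    intro s t hst hc
    have h1 := h (fun b c => (if b = s ∧ c = t then 1 else 0) - (if b = t ∧ c = s then 1 else 0))
      (by
        intro b c
        simp only [and_comm (a := c = s), and_comm (a := c = t)]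
        ring)
    by_contra hcon
    push Not at hcon
    obtain ⟨c1, c2, c3⟩ := hcon
    have z1 : ¬ (p = s ∧ q = t) := fun h => c1 h.1 h.2
    have z2 : ¬ (q = s ∧ r = t) := fun h => c2 h.1 h.2
    have z3 : ¬ (r = s ∧ p = t) := fun h => c3 h.1 h.2
    simp only [if_neg z1, if_neg z2, if_neg z3] at h1
    rcases hc with ⟨rfl, rfl⟩ | ⟨rfl, rfl⟩
    · simp only [hxy, hxy.symm, hyz.symm, hxz.symm, and_false, if_true, if_false, and_self] at h1
      split_ifs at h1 <;> omega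
    · simp only [hxy, hxz, hyz, hyz.symm, and_true, if_true, if_false, and_self] at h1
      split_ifs at h1 <;> omega
  have k1 := key x y hxy (Or.inl ⟨rfl, rfl⟩)
  have k2 := key y z hyz (Or.inr ⟨rfl, rfl⟩)
  rcases k1 with ⟨rfl, rfl⟩ | ⟨rfl, rfl⟩ | ⟨rfl, rfl⟩
  · rcases k2 with ⟨h1, h2⟩ | ⟨h1, h2⟩ | ⟨h1, h2⟩
    · exact absurd h1 hxy
    · exact Or.inl ⟨rfl, rfl, h2⟩
    · exact absurd h2 hxz
  · rcases k2 with ⟨h1, h2⟩ | ⟨h1, h2⟩ | ⟨h1, h2⟩
    · exact absurd h2 hxz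
    · exact absurd h1 hxy
    · exact Or.inr (Or.inr ⟨h2, rfl, rfl⟩)
  · rcases k2 with ⟨h1, h2⟩ | ⟨h1, h2⟩ | ⟨h1, h2⟩
    · exact Or.inr (Or.inl ⟨rfl, h2, rfl⟩)
    · exact absurd h2 hxz
    · exact absurd h1 hxy

theorem rel_ws1 {M : LMap V D a} {M' : LMap V D' a} {R : List D} {R' : List D'}
    (hz : M.Zero) (hz' : M'.Zero) {u v : List V} {x y z : V} (hxy : x ≠ y) (hyz : y ≠ z)
    (hxz : x ≠ z) (hw : M.HasWalk R (u ++ x :: y :: z :: v))
    (hw' : M'.HasWalk R' (u ++ x :: z :: v)) (h : M.Rel R M' R' 1)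
    {A : Type} [AddCommGroup A] (ω : V → V → V → A) (hω : ∀ x y z, ω y z x = ω x y z) :
    ws M' {d | d ∈ R'} ω = ws M {d | d ∈ R} ω + 3 • ω x y z := by
  obtain ⟨N, hN, hT, hF⟩ := rel_sum (face_iff (Or.inr hw.1)).1 (face_iff (Or.inr hw.1)).2
    (face_iff (Or.inr hw'.1)).1 (face_iff (Or.inr hw'.1)).2 h
  obtain ⟨t, ht⟩ : N.Nonempty := Finset.card_pos.1 (by omega)
  obtain ⟨⟨⟨t3, tn⟩, -⟩, t1, -⟩ := hT t ht
  obtain ⟨-, t2, -⟩ := hT _ t1
  have hN3 : N = {t, M'.φ t, M'.φ (M'.φ t)} := by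
    symm
    apply Finset.eq_of_subset_of_card_le
    · intro d hd
      simp only [Finset.mem_insert, Finset.mem_singleton] at hd
      rcases hd with rfl | rfl | rfl
      · exact ht
      · exact t1
      · exact t2
    · have n1 : t ≠ M'.φ (M'.φ t) := by
        intro h
        apply tn
        conv_lhs => rw [h]
        exact t3
      have n2 : M'.φ t ≠ M'.φ (M'.φ t) := fun h => tn (M'.φ.injective h).symm
      rw [Finset.card_insert_of_notMem, Finset.card_insert_of_notMem, Finset.card_singleton, hN]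
      · simpa using n2
      · simp only [Finset.mem_insert, Finset.mem_singleton, not_or]
        exact ⟨fun h => tn h.symm, n1⟩
  have hsum : ∀ (B : Type) [AddCommGroup B] (F : V → V → V → B),
      ∑ d ∈ N, F (M'.f d) (M'.f (M'.φ d)) (M'.f (M'.φ (M'.φ d))) =
        F (M'.f t) (M'.f (M'.φ t)) (M'.f (M'.φ (M'.φ t))) +
        (F (M'.f (M'.φ t)) (M'.f (M'.φ (M'.φ t))) (M'.f t) +
        F (M'.f (M'.φ (M'.φ t))) (M'.f t) (M'.f (M'.φ t))) := by
    intro B _ F
    have n1 : t ≠ M'.φ (M'.φ t) := by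
      intro h
      apply tn
      conv_lhs => rw [h]
      exact t3
    have n2 : M'.φ t ≠ M'.φ (M'.φ t) := fun h => tn (M'.φ.injective h).symm
    rw [hN3, Finset.sum_insert, Finset.sum_insert, Finset.sum_singleton, t3]
    · simpa using n2
    · simp only [Finset.mem_insert, Finset.mem_singleton, not_or]
      exact ⟨fun h => tn h.symm, n1⟩
  have hid := tri_id (p := M'.f t) (q := M'.f (M'.φ t)) (r := M'.f (M'.φ (M'.φ t))) hxy hyz hxz
    (by
      intro η hη
      have h1 := hF ℤ (fun p q _ => η p q)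
      rw [ws_edge hz η hη hw, ws_edge hz' η hη hw', hsum ℤ (fun p q _ => η p q),
        sE_app η u x (z :: v), sE_app η u x (y :: z :: v)] at h1
      simp only [sE_cc] at h1
      linarith)
  have hωt : ω (M'.f t) (M'.f (M'.φ t)) (M'.f (M'.φ (M'.φ t))) = ω x y z := by
    rcases hid with ⟨h1, h2, h3⟩ | ⟨h1, h2, h3⟩ | ⟨h1, h2, h3⟩
    · rw [h1, h2, h3]
    · rw [h1, h2, h3, hω]
    · rw [h1, h2, h3, ← hω z x y]
  rw [hF A ω, hsum A ω, hω (M'.f (M'.φ t)) (M'.f (M'.φ (M'.φ t))) (M'.f t),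
    hω (M'.f t) (M'.f (M'.φ t)) (M'.f (M'.φ (M'.φ t))), hωt]
  abel

variable {A : Type} [AddCommGroup A] {G : SimpleGraph V} {Y : Set V} {ω : V → V → V → A}

theorem concl0 {ω₀ : V → V → V → ZMod 2} {M : LMap V D a} {R : List D} {w : List V} {e : ZMod 2}
    (hR : M.IsFace R) (h : MSG.StepConcl G Y ω₀ M R w e 0) : StepConcl G Y ω M R w 0 0 := by
  obtain ⟨D', i, M', R', h1, h2, h3, h4, h5⟩ := h
  refine ⟨D', i, M', R', h1, h2, h3, h4, fun hz => ⟨(h5 hz).1, (h5 hz).2.1, ?_⟩⟩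
  rw [rel_ws0 (Or.inr hR) (Or.inr h1.1) h4]
  simp

theorem concl1 {ω₀ : V → V → V → ZMod 2} {M : LMap V D a} {R : List D} {u v : List V} {x y z : V}
    {e : ZMod 2} (hxy : x ≠ y) (hyz : y ≠ z) (hxz : x ≠ z)
    (hw : M.HasWalk R (u ++ x :: y :: z :: v)) (hω : ∀ x y z, ω y z x = ω x y z)
    (h : MSG.StepConcl G Y ω₀ M R (u ++ x :: z :: v) e 1) :
    StepConcl G Y ω M R (u ++ x :: z :: v) (ω x y z) 1 := by
  obtain ⟨D', i, M', R', h1, h2, h3, h4, h5⟩ := h
  refine ⟨D', i, M', R', h1, h2, h3, h4, fun hz => ⟨(h5 hz).1, (h5 hz).2.1, ?_⟩⟩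
  exact rel_ws1 hz (h5 hz).1 hxy hyz hxz hw h1 h4 ω hω

theorem stepConcl_trans (hT : RelTransStatement) {M : LMap V D a} {R : List D}
    {w w' : List V} {e e' : A} {n n' : ℕ} (hR : M.IsFace R)
    (h1 : StepConcl G Y ω M R w e n)
    (h2 : ∀ (D' : Type) [Fintype D'] (M' : LMap V D' a) (R' : List D'), M'.HasWalk R' w →
      M'.Planar → M'.AdjM G → StepConcl G Y ω M' R' w' e' n') :
    StepConcl G Y ω M R w' (e + e') (n + n') := by
  obtain ⟨D', i', M', R', hw', hp', ha', hr', hz'⟩ := h1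
  obtain ⟨D'', i'', M'', R'', hw'', hp'', ha'', hr'', hz''⟩ := h2 D' M' R' hw' hp' ha'
  refine ⟨D'', i'', M'', R'', hw'', hp'', ha'', ?_, ?_⟩
  · exact hT V D D' D'' a M M' M'' R R' R'' n n' (Or.inr hR) (Or.inr hw'.1) hr' hr''
  · intro hz
    obtain ⟨z1, y1, s1⟩ := hz' hz
    obtain ⟨z2, y2, s2⟩ := hz'' z1
    refine ⟨z2, fun h => y2 (y1 h), ?_⟩
    rw [s2, s1, smul_add, add_assoc]

/-- one elementary homotopy on a face -/
theorem step (hI : StepIStatement) (hD : StepDStatement) (hC : StepCStatement)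
    (hT : RelTransStatement) {X : Cx V} (hA : FreeAut X a) {Y : Set V} {ω : V → V → V → A}
    (hω : Cocyc X.G Y ω) (M : LMap V D a) (R : List D) {w w' : List V} {e : A}
    (hP : M.Planar) (hAdj : M.AdjM X.G) (hW : M.HasWalk R w) (hS : Stp X.G Y ω w w' e)
    (hlen : 3 ≤ w'.length) : StepConcl X.G Y ω M R w' e (nTri w w') := by
  have hC0 : MSG.Cocyc X.G Y (fun _ _ _ => 0) := ⟨fun _ _ _ => rfl, fun _ _ _ => rfl, by simp⟩
  have stC : ∀ (D : Type) [Fintype D] (M : LMap V D a) (R : List D) (u v : List V) (x y z : V),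
      M.Planar → M.AdjM X.G → X.G.Adj x y → X.G.Adj y z → X.G.Adj x z →
      3 ≤ (u ++ x :: z :: v).length → M.HasWalk R (u ++ x :: y :: z :: v) →
      StepConcl X.G Y ω M R (u ++ x :: z :: v) (ω x y z) 1 := by
    intro D _ M R u v x y z hP hAdj hxy hyz hxz hlen hW
    exact concl1 hxy.ne hyz.ne hxz.ne hW hω.cyc
      (hC V D X a hA M R Y (fun _ _ _ => 0) u v x y z hC0 hP hAdj hxz hlen hW)
  cases hS with
  | ins u v x y hxy hy =>
    have : nTri (u ++ x :: v) (u ++ x :: y :: x :: v) = 0 := by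
      unfold nTri
      rw [if_pos]
      right
      simp
      omega
    rw [this]
    exact concl0 hW.1 (hI V D X a hA M R Y (fun _ _ _ => 0) u v x y hP hAdj hxy hy hW)
  | del u v x y hxy =>
    have : nTri (u ++ x :: y :: x :: v) (u ++ x :: v) = 0 := by
      unfold nTri
      rw [if_pos]
      left
      simp
      omega
    rw [this]
    exact concl0 hW.1 (hD V D X a hA M R Y (fun _ _ _ => 0) u v x y hP hAdj (by omega) hW)
  | con u v x y z hxy hyz hxz =>
    have : nTri (u ++ x :: y :: z :: v) (u ++ x :: z :: v) = 1 := by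
      unfold nTri
      rw [if_neg]
      simp
      omega
    rw [this]
    exact stC D M R u v x y z hP hAdj hxy hyz hxz hlen hW
  | exp u v x y z hxy hyz hxz hy =>
    have : nTri (u ++ x :: z :: v) (u ++ x :: y :: z :: v) = 0 + 1 := by
      unfold nTri
      rw [if_neg]
      simp
      omega
    rw [this]
    have e1 : -ω x y z = 0 + ω y x z := by rw [hω.s12 x y z, zero_add]
    rw [e1]
    refine stepConcl_trans hT hW.1 (w := u ++ x :: y :: x :: z :: v) ?_ ?_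
    · exact concl0 hW.1 (hI V D X a hA M R Y (fun _ _ _ => 0) u (z :: v) x y hP hAdj hxy hy hW)
    · intro D' _ M' R' hW' hP' hA'
      have e2 : u ++ x :: y :: x :: z :: v = (u ++ [x]) ++ y :: x :: z :: v := by simp
      have e3 : u ++ x :: y :: z :: v = (u ++ [x]) ++ y :: z :: v := by simp
      rw [e2] at hW'
      rw [e3]
      rw [e3] at hlen
      exact stC D' M' R' (u ++ [x]) v y x z hP' hA' hxy.symm hxz hyz hlen hW'

theorem close (hcl : CloseStatement) {X : Cx V} (hA : FreeAut X a) (Y : Set V) (ω : V → V → V → A)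
    (M : LMap V D a) (R : List D) {x y : V} (hP : M.Planar) (hAdj : M.AdjM X.G)
    (hW : M.HasWalk R [x, y, x]) :
    ∃ (D' : Type) (_ : Fintype D') (M' : LMap V D' a), M'.Planar ∧ M'.AdjM X.G ∧ M.Rel R M' [] 0 ∧
    (M.Zero → M'.Zero ∧ ((∀ d, M.f d ∈ Y) → ∀ d, M'.f d ∈ Y) ∧
      ws M' ∅ ω = ws M {d | d ∈ R} ω) := by
  obtain ⟨D', i, M', h1, h2, h3, h4⟩ := hcl V D X a hA M R Y (fun _ _ _ => 0) x y hP hAdj hW
  refine ⟨D', i, M', h1, h2, h3, fun hz => ⟨(h4 hz).1, (h4 hz).2.1, ?_⟩⟩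
  have := rel_ws0 (Or.inr hW.1) (Or.inl rfl) h3 ω
  simpa using this

theorem fill (hI : StepIStatement) (hD : StepDStatement) (hC : StepCStatement)
    (hcl : CloseStatement) (hrot : RotStatement) (hT : RelTransStatement) {X : Cx V}
    (hA : FreeAut X a) {Y : Set V} {ω : V → V → V → A} (hω : Cocyc X.G Y ω) {w : List V} {e : A}
    {n : ℕ} (hN : NulP X.G Y ω w e n) : ∀ (D : Type) [Fintype D] (M : LMap V D a) (R : List D),
    M.Planar → M.AdjM X.G → M.HasWalk R w →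
    ∃ (D' : Type) (_ : Fintype D') (M' : LMap V D' a), M'.Planar ∧ M'.AdjM X.G ∧ M.Rel R M' [] n ∧
    (M.Zero → M'.Zero ∧ ((∀ d, M.f d ∈ Y) → ∀ d, M'.f d ∈ Y) ∧
      ws M' ∅ ω = ws M {d | d ∈ R} ω + 3 • e) := by
  induction hN with
  | base x y hxy =>
    intro D _ M R hP hAdj hW
    obtain ⟨D', i, M', h1, h2, h3, h4⟩ := close hcl hA Y ω M R hP hAdj hW
    exact ⟨D', i, M', h1, h2, h3, fun hZ => ⟨(h4 hZ).1, (h4 hZ).2.1, by
      rw [(h4 hZ).2.2, smul_zero, add_zero]⟩⟩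
  | rot x y l e n hlast _ ih =>
    intro D _ M R hP hAdj hW
    have h0 := hrot V D X a hA M R x y l 0 hW (by simpa using hlast)
    have h1 : M.HasWalk (R.rotate 1) (y :: (l ++ [y])) := by simpa using h0.1
    obtain ⟨D', i, M', g1, g2, g3, g4⟩ := ih D M (R.rotate 1) hP hAdj h1
    have hmem : ∀ d, d ∈ R.rotate 1 ↔ d ∈ R := fun d => List.mem_rotate
    have g3' : M.Rel R M' [] n := by
      obtain ⟨j, h1, h2, h3, h4, h5, h6⟩ := g3
      refine ⟨fun x => j ⟨x.1, fun hx => x.2 ((hmem _).1 hx)⟩, ?_, ?_, ?_, ?_, ?_, ?_⟩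
      · intro x y hxy
        have h := h1 hxy
        simp only [Subtype.mk.injEq] at h
        exact Subtype.ext h
      · intro x; exact h2 _
      · intro x y hxy
        exact h3 _ _ hxy
      · intro x; exact h4 _
      · intro d' hd' hx
        apply h5 d' hd'
        intro x
        exact hx ⟨x.1, fun hx' => x.2 ((hmem _).2 hx')⟩
      · rw [List.length_rotate] at h6; exact h6
    refine ⟨D', i, M', g1, g2, g3', fun hZ => ?_⟩
    have hset : {d | d ∈ R.rotate 1} = {d | d ∈ R} := Set.ext hmem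
    have := g4 hZ
    rw [hset] at this
    exact this
  | stp w w' e e' n hs hl _ ih =>
    intro D _ M R hP hAdj hW
    obtain ⟨D', i', M', R', k1, k2, k3, k4, k5⟩ :=
      step hI hD hC hT hA hω M R hP hAdj hW hs hl
    obtain ⟨D'', i'', M'', g1, g2, g3, g4⟩ := ih D' M' R' k2 k3 k1
    refine ⟨D'', i'', M'', g1, g2, ?_, ?_⟩
    · rw [add_comm]
      exact hT V D D' D'' a M M' M'' R R' [] _ _ (Or.inr hW.1) (Or.inr k1.1) k4 g3
    · intro hZ
      obtain ⟨a1, a2, a3⟩ := k5 hZ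
      obtain ⟨b1, b2, b3⟩ := g4 a1
      refine ⟨b1, fun hY => b2 (a2 hY), ?_⟩
      rw [b3, a3, smul_add, add_assoc]

end MSZ
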