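import Pool.Agent.Lib.MP_acafa7_al.F.H03.StarDel
import Pool.Agent.Lib.MP_acafa7_al.F.H03.Step
import Pool.Agent.Lib.MP_acafa7_al.F.H03.Cone
import Pool.Agent.Lib.MP_acafa7_al.MS.H21.SphC

/-! PaperF.md, part Z: Lemma 4.1 and Proposition 5.1 (a) with weights. -/

namespace MSZ

open Classical MSG

/-- Lemma 4.1 -/
def RedStatement (A : Type) [AddCommGroup A] : Prop :=
  ∀ (V D : Type) [Fintype D] (X : Cx V) (a : Equiv.Perm V), X.IsMetric → X.Large → FreeAut X a →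
    ∀ (M : LMap V D a) (B : Set D) (Y : Set V) (ω : V → V → V → A) (d₀ : D),
    Cocyc X.G Y ω → ((∀ x, x ∈ Y) ∨ (M.Zero ∧ ∀ d, M.f d ∈ Y)) →
    M.Planar → M.AdjM X.G → M.Off B →
    (∀ d, M.SameV d₀ d → d ∉ B) → (∀ d, M.SameV d₀ d → ¬ M.SameV d (M.ι d)) →
    0 < M.curv (M.lenM X) B d₀ →
    ∃ (D' : Type) (_ : Fintype D') (M' : LMap V D' a) (j : B → D'),
      Function.Injective j ∧ (∀ x y : B, M.φ x = y → M'.φ (j x) = j y) ∧
      (∀ x, M'.f (j x) = M.f x ∧ M'.h (j x) = M.h x) ∧ M'.Planar ∧ M'.AdjM X.G ∧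
      M'.Off (Set.range j) ∧ Fintype.card D' < Fintype.card D ∧
      (M.Zero → M'.Zero ∧ ((∀ d, M.f d ∈ Y) → (∀ d, M'.f d ∈ Y) ∧
        (B = ∅ → ws M' ∅ ω = ws M ∅ ω)))

theorem red (A : Type) [AddCommGroup A] (h1 : StarDelStatement A) (h2 : ConeStatement)
    (hI : StepIStatement) (hD : StepDStatement) (hC : StepCStatement)
    (hcl : CloseStatement) (hrot : RotStatement) (hT : RelTransStatement) : RedStatement A := by
  intro V D _ X a hmet hlarge hfree M B Y ω d₀ hω hY hpl hadj hoff hB hloop hcurv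
  obtain ⟨k, u, hk, hper, hlink, hadju, hcv, huf, D', _, M', R, j, hwalk, hRk, hcard, hji, hjR,
    hjφ, hjf, hpl', hadj', hoff', hz⟩ := h1 V D X a hmet hfree M B d₀ ω hpl hadj hoff hB hloop
  rw [hcv] at hcurv
  have hx : M.f d₀ ∈ Y := by
    rcases hY with h | h
    · exact h _
    · exact h.2 _
  have huY : ∀ i, u i ∈ Y := by
    intro i
    rcases hY with h | h
    · exact h _
    · obtain ⟨d, hd⟩ := huf h.1 i
      rw [hd]
      exact h.2 _
  obtain ⟨n, hn, hnul⟩ := cone h2 hmet hlarge hω (M.f d₀) k u hx hk huY hper hlink hadju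
    (by linarith)
  obtain ⟨D'', _, M'', hpl'', hadj'', hrel, hz'⟩ := fill hI hD hC hcl hrot hT hfree hω hnul D' M' R
    hpl' hadj' hwalk
  obtain ⟨j', hj'i, -, hj'φ, hj'f, hj'tri, hcard'⟩ := hrel
  have hRφ : ∀ d, d ∈ R → M'.φ d ∈ R := by
    intro d hd
    have h := hwalk.1.2.2
    have h5 : M'.φ d ∈ R.map M'.φ := List.mem_map_of_mem hd
    rw [h] at h5
    simpa using h5
  refine ⟨D'', inferInstance, M'', fun x => j' ⟨j x, hjR x⟩, ?_, ?_, ?_, hpl'', hadj'', ?_, ?_, ?_⟩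
  · intro x y hxy
    have h := hj'i hxy
    exact hji (congrArg Subtype.val h)
  · intro x y hxy
    exact hj'φ ⟨j x, hjR x⟩ ⟨j y, hjR y⟩ (hjφ x y hxy)
  · intro x
    have h := hj'f ⟨j x, hjR x⟩
    have h' := hjf x
    exact ⟨h.1.trans h'.1, h.2.trans h'.2⟩
  · constructor
    · rintro d ⟨x, rfl⟩
      refine ⟨⟨M.φ x, hoff.1 _ x.2⟩, ?_⟩
      exact (hj'φ ⟨j x, hjR x⟩ ⟨j ⟨M.φ x, hoff.1 _ x.2⟩, hjR _⟩ (hjφ x ⟨M.φ x, hoff.1 _ x.2⟩ rfl)).symm
    · intro d hd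
      by_cases hex : ∃ y, j' y = d
      · obtain ⟨y, rfl⟩ := hex
        have hy : y.1 ∉ Set.range j ∪ {d | d ∈ R} := by
          rintro (⟨x, hx⟩ | h)
          · apply hd
            refine ⟨x, ?_⟩
            simp only
            congr 1
            exact Subtype.ext hx
          · exact y.2 h
        obtain ⟨⟨h31, h32⟩, h33⟩ := hoff'.2 _ hy
        have hφφ : M'.φ (M'.φ y.1) ∉ R := by
          intro h
          apply y.2
          have := hRφ _ h
          rwa [h31] at this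
        have hφ1 : M'.φ y.1 ∉ R := fun h => hφφ (hRφ _ h)
        have e1 : M''.φ (j' y) = j' ⟨M'.φ y.1, hφ1⟩ := hj'φ y ⟨M'.φ y.1, hφ1⟩ rfl
        have e2 : M''.φ (j' ⟨M'.φ y.1, hφ1⟩) = j' ⟨M'.φ (M'.φ y.1), hφφ⟩ :=
          hj'φ ⟨M'.φ y.1, hφ1⟩ ⟨M'.φ (M'.φ y.1), hφφ⟩ rfl
        have e3 : M''.φ (j' ⟨M'.φ (M'.φ y.1), hφφ⟩) = j' y :=
          hj'φ ⟨M'.φ (M'.φ y.1), hφφ⟩ y h31
        refine ⟨⟨?_, ?_⟩, ?_⟩
        · rw [e1, e2, e3]
        · rw [e1]
          intro h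
          have := hj'i h
          exact h32 (congrArg Subtype.val this)
        · rw [e1, e2, (hj'f y).2, (hj'f _).2, (hj'f _).2]
          exact h33
      · apply hj'tri d (by simp)
        intro x hx
        exact hex ⟨x, hx⟩
  · simp only [List.length_nil, add_zero] at hcard'
    rw [hRk] at hcard'
    omega
  · intro hzero
    obtain ⟨hz1, hz2, hz3⟩ := hz hzero
    obtain ⟨hz1', hz2', hz3'⟩ := hz' hz1
    refine ⟨hz1', fun hfY => ?_⟩
    have hf' : ∀ d, M'.f d ∈ Y := by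
      intro d
      obtain ⟨d1, hd1⟩ := hz2 d
      rw [hd1]
      exact hfY _
    refine ⟨hz2' hf', ?_⟩
    rintro rfl
    have h5 := hz3 hω.cyc
    have h6 : Set.range j = ∅ := by
      ext x
      simp
    rw [h6, Set.empty_union] at h5
    rw [hz3', ← h5]


/-- Proposition 5.1 (a) -/
theorem sphc (A : Type) [AddCommGroup A] (h1 : Gb0Statement) (h2 : RedStatement A) :
    ∀ (V D : Type) [Fintype D] (X : Cx V) (a : Equiv.Perm V), X.IsMetric → X.Large → FreeAut X a →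
    ∀ (M : LMap V D a) (Y : Set V) (ω : V → V → V → A), Cocyc X.G Y ω → M.Zero →
    (∀ d, M.f d ∈ Y) → M.Planar → M.AdjM X.G → M.Off ∅ → ws M ∅ ω = 0 := by
  intro V D _ X a hmet hlarge hfree M Y ω hω hz hfY hpl hadj hoff
  induction hn : Fintype.card D using Nat.strong_induction_on generalizing D with
  | _ n ih =>
  rcases isEmpty_or_nonempty D with hD | hD
  · unfold ws
    simp
  have hlen : M.toDMap.LenOK (M.lenM X) ∅ := by
    refine ⟨fun d => hmet.pos _ _ (hadj d), ?_, ?_⟩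
    · intro d
      unfold LMap.lenM
      rw [zero_ta hz (M.ι d), zero_ta hz d, M.ιι, hmet.symm]
    · intro d _
      obtain ⟨⟨h31, -⟩, -⟩ := hoff.2 d (by simp)
      have e1 := hadj d
      have e2 := hadj (M.φ d)
      have e3 := hadj (M.φ (M.φ d))
      rw [zero_tb hz] at e1 e2 e3
      rw [h31] at e3
      unfold LMap.lenM
      rw [zero_tb hz d, zero_tb hz (M.φ d), zero_tb hz (M.φ (M.φ d)), h31]
      have h := hmet.tri (M.f (M.φ d)) (M.f d) (M.f (M.φ (M.φ d))) e1.symm e3.symm e2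
      rw [hmet.symm (M.f d) (M.f (M.φ d)), hmet.symm (M.f (M.φ (M.φ d))) (M.f d)]
      exact h
  obtain ⟨d, hd⟩ := h1 D M.toDMap (M.lenM X) hpl hD ⟨fun d hd => absurd hd (by simp),
    fun d _ => (hoff.2 d (by simp)).1⟩ hlen
  obtain ⟨D', _, M', j, -, -, -, hpl', hadj', hoff', hcard, hz'⟩ := h2 V D X a hmet hlarge hfree M
    ∅ Y ω d hω (Or.inr ⟨hz, hfY⟩) hpl hadj hoff (by simp) (by
      intro e _ hl
      have h := H21.zero_sameV hz hl
      have h' := hadj e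
      rw [zero_ta hz, h] at h'
      exact h'.ne rfl) hd
  obtain ⟨hz1, hz2⟩ := hz' hz
  obtain ⟨hz3, hz4⟩ := hz2 hfY
  have h6 : Set.range j = ∅ := by
    ext x
    simp
  rw [h6] at hoff'
  rw [← hz4 rfl]
  exact ih (Fintype.card D') (hn ▸ hcard) D' M' hz1 hz3 hpl' hadj' hoff' rfl


end MSZ
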