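import Pool.Agent.Lib.MP_acafa7_al.F.H03.Defs
import Pool.Agent.Lib.MP_acafa7_al.MS.H70.Kit

/-! PaperF.md, part Z: sums over the darts outside a face, transfer along `Rel`. -/

namespace MSZ

open Classical MSG

variable {V : Type} {D D' : Type} [Fintype D] [Fintype D'] {a : Equiv.Perm V}

theorem sum_split {α A : Type} [AddCommGroup A] [Fintype α] (P : α → Prop) (g : α → A) :
    ∑ d, g d = (∑ d, if P d then g d else 0) + ∑ d, if P d then 0 else g d := by
  rw [← Finset.sum_add_distrib]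
  refine Finset.sum_congr rfl fun d _ => ?_
  split_ifs <;> simp

/-- transfer of sums along `Rel` -/
theorem rel_sum {M : LMap V D a} {M' : LMap V D' a} {R : List D} {R' : List D'} {n : ℕ}
    (hR : ∀ d, M.φ d ∈ R ↔ d ∈ R) (hRn : R.Nodup) (hR' : ∀ d, M'.φ d ∈ R' ↔ d ∈ R')
    (hRn' : R'.Nodup) (h : M.Rel R M' R' n) :
    ∃ N : Finset D', N.card = 3 * n ∧ (∀ d ∈ N, M'.Tri d ∧ M'.φ d ∈ N ∧ d ∉ R') ∧
      ∀ (A : Type) [AddCommGroup A] (F : V → V → V → A),
        ws M' {d | d ∈ R'} F = ws M {d | d ∈ R} F +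
          ∑ d ∈ N, F (M'.f d) (M'.f (M'.φ d)) (M'.f (M'.φ (M'.φ d))) := by
  obtain ⟨j, hji, hjR, hjφ, hjf, hjtri, hcard⟩ := h
  set I : Finset D' := Finset.univ.image j with hI
  set S' : Finset D' := Finset.univ.filter (fun d => d ∉ R') with hS'
  have hIS : I ⊆ S' := by
    intro d hd
    simp only [hI, Finset.mem_image, Finset.mem_univ, true_and] at hd
    obtain ⟨x, rfl⟩ := hd
    simp [hS', hjR x]
  have hφ : ∀ x : {d : D // d ∉ R}, M.φ x.1 ∉ R := fun x hx => x.2 ((hR _).1 hx)
  refine ⟨S' \ I, ?_, ?_, ?_⟩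
  · rw [Finset.card_sdiff_of_subset hIS]
    have h1 : I.card = Fintype.card D - R.length := by
      rw [hI, Finset.card_image_of_injective _ hji, Finset.card_univ, Fintype.card_subtype_compl,
        Fintype.card_subtype]
      congr 1
      rw [← List.toFinset_card_of_nodup hRn]
      congr 1
      ext d
      simp
    have h2 : S'.card = Fintype.card D' - R'.length := by
      have : S' = R'.toFinsetᶜ := by
        ext d
        simp [hS']
      rw [this, Finset.card_compl, List.toFinset_card_of_nodup hRn']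
    have h3 : R.length ≤ Fintype.card D := by
      rw [← List.toFinset_card_of_nodup hRn]
      exact Finset.card_le_univ _
    have h4 : R'.length ≤ Fintype.card D' := by
      rw [← List.toFinset_card_of_nodup hRn']
      exact Finset.card_le_univ _
    rw [h1, h2]
    omega
  · intro d hd
    simp only [Finset.mem_sdiff, hS', hI, Finset.mem_filter, Finset.mem_univ, true_and,
      Finset.mem_image, not_exists] at hd ⊢
    refine ⟨hjtri d hd.1 hd.2, ⟨fun hh => hd.1 ((hR' d).1 hh), ?_⟩, hd.1⟩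
    intro y hy
    have hy2 : M.φ.symm y.1 ∉ R := by
      intro hh
      apply y.2
      rw [← hR] at hh
      simpa using hh
    have := hjφ ⟨M.φ.symm y.1, hy2⟩ y (by simp)
    rw [hy] at this
    exact hd.2 _ (M'.φ.injective this)
  · intro A _ F
    set g' : D' → A := fun d => F (M'.f d) (M'.f (M'.φ d)) (M'.f (M'.φ (M'.φ d))) with hg'
    set g : D → A := fun d => F (M.f d) (M.f (M.φ d)) (M.f (M.φ (M.φ d))) with hg
    have e1 : ws M' {d | d ∈ R'} F = ∑ d ∈ S', g' d := by
      unfold ws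
      rw [hS', Finset.sum_filter]
      refine Finset.sum_congr rfl fun d _ => ?_
      by_cases h : d ∈ R' <;> simp [h, hg']
    have e2 : ws M {d | d ∈ R} F = ∑ x : {d : D // d ∉ R}, g x.1 := by
      unfold ws
      have h1 : ∑ x : {d : D // d ∉ R}, g x.1 = ∑ x ∈ Finset.univ.filter (fun d => d ∉ R), g x := by
        rw [Finset.sum_subtype (p := fun d => d ∉ R) (Finset.univ.filter (fun d => d ∉ R))
          (by simp) g]
      rw [h1, Finset.sum_filter]
      refine Finset.sum_congr rfl fun d _ => ?_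
      by_cases h : d ∈ R <;> simp [h, hg]
    have e3 : ∑ d ∈ I, g' d = ∑ x : {d : D // d ∉ R}, g x.1 := by
      rw [hI, Finset.sum_image (fun x _ y _ h => hji h)]
      refine Finset.sum_congr rfl fun x _ => ?_
      have a1 : M'.φ (j x) = j ⟨M.φ x.1, hφ x⟩ := hjφ x ⟨M.φ x.1, hφ x⟩ rfl
      have a2 : M'.φ (j ⟨M.φ x.1, hφ x⟩) = j ⟨M.φ (M.φ x.1), hφ ⟨M.φ x.1, hφ x⟩⟩ :=
        hjφ ⟨M.φ x.1, hφ x⟩ ⟨M.φ (M.φ x.1), hφ ⟨M.φ x.1, hφ x⟩⟩ rfl
      simp only [hg', hg]
      rw [a1, a2, (hjf x).1, (hjf _).1, (hjf _).1]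
    rw [e1, e2, ← e3, add_comm, Finset.sum_sdiff hIS]

omit [Fintype D] in
theorem zero_ta {M : LMap V D a} (hz : M.Zero) (d : D) : M.t d = M.f (M.ι d) := by
  unfold LMap.t
  rw [(hz d).1]
  simp

omit [Fintype D] in
theorem zero_tb {M : LMap V D a} (hz : M.Zero) (d : D) : M.t d = M.f (M.φ d) := by
  have h := M.tgt d
  unfold LMap.t
  rw [h, (hz d).2]
  simp

omit [Fintype D] in
theorem wkA_zero {M : LMap V D a} (hz : M.Zero) (l : List D) : M.wkA 0 l = l.map M.t := by
  induction l with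
  | nil => rfl
  | cons r l ih =>
    show (a ^ (0 : ℤ)) (M.t r) :: M.wkA (0 + M.h r) l = _
    rw [(hz r).2, add_zero, ih]
    simp

omit [Fintype D] in
theorem sE_pth {M : LMap V D a} (hz : M.Zero) {A : Type} [AddCommGroup A] (η : V → V → A)
    (l : List D) : ∀ d e, H70.pth M.toDMap d l e →
      sE η (M.f d :: l.map M.t) = (l.map (fun x => η (M.f x) (M.f (M.φ x)))).sum := by
  induction l with
  | nil => intro d e _; simp
  | cons x l ih =>
    rintro d e ⟨rfl, h⟩
    simp only [List.map_cons, sE_cc, List.sum_cons]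
    have := ih _ _ h
    rw [← zero_tb hz] at this
    rw [this, zero_tb hz]

/-- sum of a 1-cochain over a face = over its walk -/
theorem face_sum {M : LMap V D a} (hz : M.Zero) {A : Type} [AddCommGroup A] (η : V → V → A)
    {R : List D} {w : List V} (h : M.HasWalk R w) :
    (∑ d, if d ∈ R then η (M.f d) (M.f (M.φ d)) else 0) = sE η w := by
  obtain ⟨hf, c, hw, hc⟩ := h
  rw [hc hz] at hw
  have hw' : M.wk R = w := by
    rw [hw]
    simp
  rw [← hw']
  cases R with
  | nil => exact absurd rfl hf.1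
  | cons r l =>
    show _ = sE η (M.f r :: M.wkA 0 (r :: l))
    rw [wkA_zero hz, sE_pth hz η (r :: l) r r ((H70.isFace_cons _ _ _).1 hf).2,
      ← List.sum_toFinset _ hf.2.1, ← Finset.sum_filter]
    refine Finset.sum_congr ?_ fun _ _ => rfl
    ext d
    simp

/-- antisymmetric functions of edges have total sum zero -/
theorem edge_sum {M : LMap V D a} (hz : M.Zero) (η : V → V → ℤ) (hη : ∀ x y, η y x = - η x y) :
    ∑ d, η (M.f d) (M.f (M.φ d)) = 0 := by
  have h1 : ∑ d, η (M.f d) (M.f (M.φ d)) = ∑ d, η (M.f (M.ι d)) (M.f (M.φ (M.ι d))) :=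
    (Equiv.sum_comp M.ι (fun d => η (M.f d) (M.f (M.φ d)))).symm
  have h2 : ∀ d, η (M.f (M.ι d)) (M.f (M.φ (M.ι d))) = - η (M.f d) (M.f (M.φ d)) := by
    intro d
    rw [← zero_tb hz (M.ι d), zero_ta hz (M.ι d), M.ιι, ← zero_ta hz d, zero_tb hz d]
    exact hη _ _
  rw [Finset.sum_congr rfl (fun d _ => h2 d), Finset.sum_neg_distrib] at h1
  omega

theorem ws_edge {M : LMap V D a} (hz : M.Zero) (η : V → V → ℤ) (hη : ∀ x y, η y x = - η x y)
    {R : List D} {w : List V} (h : M.HasWalk R w) :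
    ws M {d | d ∈ R} (fun p q _ => η p q) = - sE η w := by
  have h1 := edge_sum hz η hη
  have h3 := face_sum hz η h
  have h2 : ∑ d, η (M.f d) (M.f (M.φ d)) = (∑ d, if d ∈ R then η (M.f d) (M.f (M.φ d)) else 0) +
      ws M {d | d ∈ R} (fun p q _ => η p q) := by
    unfold ws
    rw [← Finset.sum_add_distrib]
    refine Finset.sum_congr rfl fun d _ => ?_
    by_cases hd : d ∈ R <;> simp [hd]
  rw [h1, h3] at h2
  omega

end MSZ
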