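import Pool.Agent.Lib.MP_acafa7_al.F.H03.Red
import Pool.Agent.Lib.MP_acafa7_al.MS.H21.Sph

/-! PaperF.md, part Z: homotopies of the constant walk have weight 0. -/

namespace MSZ

open Classical MSG MSG.H21

/-- forget the weight -/
theorem to0 {V A : Type} [AddCommGroup A] {G : SimpleGraph V} {Y : Set V} {ω : V → V → V → A}
    {l l' : List V} {e : A} (h : Stp G Y ω l l' e) : MSG.Stp G Y (fun _ _ _ => 0) l l' 0 := by
  cases h with
  | ins u v x y hxy hy => exact MSG.Stp.ins u v x y hxy hy
  | del u v x y hxy => exact MSG.Stp.del u v x y hxy
  | exp u v x y z hxy hyz hxz hy => exact MSG.Stp.exp u v x y z hxy hyz hxz hy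
  | con u v x y z hxy hyz hxz => exact MSG.Stp.con u v x y z hxy hyz hxz

theorem isW_stp {V A : Type} [AddCommGroup A] {G : SimpleGraph V} {Y : Set V} {ω : V → V → V → A}
    {l l' : List V} {e : A} (h : Stp G Y ω l l' e) {x z : V} (hl : IsW G x z l) : IsW G x z l' :=
  H21.isW_stp (to0 h) hl

/-- Proposition 5.1 (b) -/
theorem sph_aut {A : Type} [AddCommGroup A] (hA : ∀ e : A, 3 • e = 0 → e = 0)
    (h1 : Gb0Statement) (hred : RedStatement A)
    (hI : StepIStatement) (hD : StepDStatement) (hC : StepCStatement) (hcl : CloseStatement)
    (hT : RelTransStatement) :
    ∀ (V : Type) (X : Cx V) (a : Equiv.Perm V), X.IsMetric → X.Large → FreeAut X a →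
    ∀ (Y : Set V) (ω : V → V → V → A), Cocyc X.G Y ω → ∀ (x : V) (e : A), x ∈ Y →
    Hom X.G Y ω [x] [x] e → e = 0 := by
  intro V X a hmet hlarge hfree Y ω hω x e hx hom
  -- the main claim
  have key : ∀ (l l' : List V) (e : A), Hom X.G Y ω l l' e → l' = [x] → IsW X.G x x l →
      (l = [x] → e = 0) ∧ (3 ≤ l.length → ∀ (D : Type) [Fintype D] (M : LMap V D a) (R : List D),
        M.HasWalk R l → M.Planar → M.AdjM X.G → M.Zero → (∀ d, M.f d ∈ Y) →
        (∀ d, d ∉ R → M.Tri d) → ws M {d | d ∈ R} ω + 3 • e = 0) := by
    intro l l' e hom
    induction hom with
    | refl l =>
      intro hl hw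
      refine ⟨fun _ => rfl, fun h3 => ?_⟩
      rw [hl] at h3
      simp at h3
    | @step l l1 l2 e1 e2 hst hom ih =>
      intro hl hw
      have hw1 := isW_stp hst hw
      obtain ⟨ih1, ih2⟩ := ih hl hw1
      refine ⟨?_, ?_⟩
      · rintro rfl
        generalize hq : [x] = q at hst
        cases hst with
        | ins u v x' y hxy hy =>
          have hu : u = [] := by
            cases u with
            | nil => rfl
            | cons b u => simp at hq
          subst hu
          simp only [List.nil_append, List.cons.injEq] at hq
          obtain ⟨rfl, rfl⟩ := hq
          have h5 := ih2 (by simp) Bool (edgeMap a x y) [true, false] ?_ ?_ ?_ ?_ ?_ ?_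
          · have h6 : ws (edgeMap a x y) {d | d ∈ [true, false]} ω = 0 := by
              unfold ws
              apply Finset.sum_eq_zero
              intro d _
              rw [if_pos]
              cases d <;> simp
            rw [h6, zero_add] at h5
            rw [hA _ h5, add_zero]
          · refine ⟨⟨by simp, by simp, by simp [edgeMap]⟩, 0, ?_, fun _ => rfl⟩
            simp [LMap.wk, LMap.wkA, LMap.t, edgeMap]
          · intro k _
            refine ⟨k, fun d => rfl, fun d => ?_⟩
            rw [CharTwo.add_self_eq_zero, CharTwo.add_self_eq_zero]
          · intro d
            cases d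
            · simp [LMap.t, edgeMap]
              exact hxy.symm
            · simp [LMap.t, edgeMap]
              exact hxy
          · intro d
            exact ⟨rfl, rfl⟩
          · intro d
            cases d
            · simpa [edgeMap] using hy
            · simpa [edgeMap] using hx
          · intro d hd
            exfalso
            apply hd
            cases d <;> simp
        | del u v x' y hxy =>
          exfalso
          have := congrArg List.length hq
          simp at this
          omega
        | exp u v x' y z' hxy hyz hxz hy =>
          exfalso
          have := congrArg List.length hq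
          simp at this
          omega
        | con u v x' y z' hxy hyz hxz =>
          exfalso
          have := congrArg List.length hq
          simp at this
          omega
      · intro hlen D _ M R hwalk hpl hadj hz hfY htri
        by_cases hlen1 : 3 ≤ l1.length
        · obtain ⟨D', _, M', R', hwalk', hpl', hadj', hrel, hz'⟩ := step hI hD hC hT hfree hω M R
            hpl hadj hwalk hst hlen1
          obtain ⟨hz1, hz2, hz3⟩ := hz' hz
          have h5 := ih2 hlen1 D' M' R' hwalk' hpl' hadj' hz1 (hz2 hfY)
            (off_of_rel (face_closed hwalk.1) (face_closed hwalk'.1) htri hrel)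
          rw [hz3] at h5
          rw [← h5, smul_add, add_assoc]
        · have hl1 := short_walk hw1 hlen1
          subst hl1
          have he2 := ih1 rfl
          subst he2
          generalize hq : [x] = q at hst
          cases hst with
          | ins u v x' y hxy hy =>
            exfalso
            have := congrArg List.length hq
            simp at this
            omega
          | exp u v x' y z' hxy hyz hxz hy =>
            exfalso
            have := congrArg List.length hq
            simp at this
            omega
          | con u v x' y z' hxy hyz hxz =>
            exfalso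
            have := congrArg List.length hq
            simp at this
            omega
          | del u v x' y hxy =>
            have hu : u = [] := by
              cases u with
              | nil => rfl
              | cons b u => simp at hq
            subst hu
            simp only [List.nil_append, List.cons.injEq] at hq
            obtain ⟨rfl, rfl⟩ := hq
            obtain ⟨D', _, M', hpl', hadj', hrel, hz'⟩ := close hcl hfree Y ω M R hpl hadj hwalk
            obtain ⟨hz1, hz2, hz3⟩ := hz' hz
            have htri' := off_of_rel (face_closed hwalk.1) (R' := []) (by simp) htri hrel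
            have h6 := sphc A h1 hred V D' X a hmet hlarge hfree M' Y ω hω hz1 (hz2 hfY) hpl'
              hadj' ⟨by simp, fun d _ => htri' d (by simp)⟩
            rw [hz3] at h6
            rw [h6]
            simp
  exact (key [x] [x] e hom rfl ⟨by simp, by simp, by simp⟩).1 rfl


end MSZ
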